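import Pool.Agent.helper81.NW.Spec

/-! # Row INT of project NW -/

set_option autoImplicit false

namespace Pool.Agent.helper81.NW

open Pool.Agent.helper84.NR
open scoped Classical
open Finset

theorem INT_onV {V F : Type} (M : PMap V F) (y : V) (B : F) (k : ℕ) : OnV M.toCyc B (ww M y B k) := ⟨_, rfl⟩

theorem INT_onE {V F : Type} (M : PMap V F) (y : V) (B : F) (k : ℕ) : OnE M.toCyc B s(ww M y B k, ww M y B (k + 1)) :=
  ⟨st M y B + k, rfl⟩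

theorem INT_endV (hEDG : EDG_stmt) {V F : Type} (M : PMap V F) (f : F) (e : Sym2 V) (v : V) (h : OnE M.toCyc f e) (hv : v ∈ e) :
    OnV M.toCyc f v := by
  obtain ⟨k, rfl⟩ := h
  rw [Sym2.mem_iff] at hv
  rcases hv with rfl | rfl
  · exact ⟨_, rfl⟩
  · exact ⟨_, rfl⟩

theorem INT_sgE (hIDX : IDX_stmt) (hEDG : EDG_stmt) (hWW0 : WW0_stmt) {V F : Type} (M : PMap V F) (x y : V)
    (hne : ∀ f, ¬ (OnV M.toCyc f x ∧ OnV M.toCyc f y)) (A B : F) (e : Sym2 V) (hAx : OnV M.toCyc A x) (hAe : OnE M.toCyc A e)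
    (hBy : OnV M.toCyc B y) (hBe : OnE M.toCyc B e) : sgE M x y e := by
  obtain ⟨_, _, h3, _, _⟩ := hIDX V F M.toCyc B (st M y B)
  obtain ⟨a, ha, he⟩ := h3 e hBe
  have hw0 := hWW0 V F M y B hBy
  have hey : y ∉ e := fun hy => hne A ⟨hAx, INT_endV hEDG M A e y hAe hy⟩
  have he' : e = s(ww M y B a, ww M y B (a + 1)) := he
  have ha1 : 1 ≤ a := by
    by_contra hc
    have : a = 0 := by omega
    subst this
    apply hey
    rw [he', hw0.1]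
    exact Sym2.mem_mk_left _ _
  have ha2 : a + 1 < M.len B := by
    by_contra hc
    have : a + 1 = M.len B := by omega
    apply hey
    rw [he', this, hw0.2]
    exact Sym2.mem_mk_right _ _
  refine ⟨B, hBy, a, ⟨⟨a, le_rfl, ha1, ha, A, hAx, ?_⟩, ⟨a + 1, by omega, by omega, ha2, A, hAx, ?_⟩⟩, he'⟩
  · apply INT_endV hEDG M A e _ hAe
    rw [he']
    exact Sym2.mem_mk_left _ _
  · apply INT_endV hEDG M A e _ hAe
    rw [he']
    exact Sym2.mem_mk_right _ _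

theorem INT_sgV (hIDX : IDX_stmt) (hWW0 : WW0_stmt) {V F : Type} (M : PMap V F) (x y : V)
    (hne : ∀ f, ¬ (OnV M.toCyc f x ∧ OnV M.toCyc f y)) (A B : F) (v : V) (hAx : OnV M.toCyc A x) (hAv : OnV M.toCyc A v)
    (hBy : OnV M.toCyc B y) (hBv : OnV M.toCyc B v) : sgV M x y v := by
  obtain ⟨_, h2, _, _, _⟩ := hIDX V F M.toCyc B (st M y B)
  obtain ⟨k, hk, hv⟩ := h2 v hBv
  have hw0 := hWW0 V F M y B hBy
  have hv' : v = ww M y B k := hv.symm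
  have hk1 : 1 ≤ k := by
    by_contra hc
    have : k = 0 := by omega
    subst this
    rw [hw0.1] at hv'
    subst hv'
    exact hne A ⟨hAx, hAv⟩
  have hsh : sh M x y B k := ⟨hk1, hk, A, hAx, by rw [← hv']; exact hAv⟩
  exact ⟨B, hBy, k, ⟨k, le_rfl, hsh⟩, ⟨k, le_rfl, hsh⟩, hv'⟩

theorem INT (hIDX : IDX_stmt) (hEDG : EDG_stmt) (hWW0 : WW0_stmt) : INT_stmt := by
  intro V F M x y hne
  have hne' : ∀ f, ¬ (OnV M.toCyc f y ∧ OnV M.toCyc f x) := fun f h => hne f ⟨h.2, h.1⟩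
  refine ⟨fun e => ⟨?_, ?_⟩, fun v => ⟨?_, ?_⟩, ?_⟩
  · rintro ⟨⟨B, hB, k, _, rfl⟩, ⟨A, hA, j, _, he⟩⟩
    refine ⟨⟨A, hA, ?_⟩, ⟨B, hB, INT_onE M y B k⟩⟩
    rw [he]
    exact INT_onE M x A j
  · rintro ⟨⟨A, hA, hAe⟩, ⟨B, hB, hBe⟩⟩
    exact ⟨INT_sgE hIDX hEDG hWW0 M x y hne A B e hA hAe hB hBe, INT_sgE hIDX hEDG hWW0 M y x hne' B A e hB hBe hA hAe⟩
  · rintro ⟨⟨B, hB, k, _, _, rfl⟩, ⟨A, hA, j, _, _, he⟩⟩
    refine ⟨⟨A, hA, ?_⟩, ⟨B, hB, INT_onV M y B k⟩⟩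
    rw [he]
    exact INT_onV M x A j
  · rintro ⟨⟨A, hA, hAv⟩, ⟨B, hB, hBv⟩⟩
    exact ⟨INT_sgV hIDX hWW0 M x y hne A B v hA hAv hB hBv, INT_sgV hIDX hWW0 M y x hne' B A v hB hBv hA hAv⟩
  · rintro e ⟨B, hB, k, ⟨⟨a, hak, hsa⟩, ⟨b, hkb, hsb⟩⟩, rfl⟩
    obtain ⟨h1, _, _, _, _⟩ := hIDX V F M.toCyc B (st M y B)
    have hw0 := hWW0 V F M y B hB
    have h1a : 1 ≤ a := hsa.1
    have hbl : b < M.len B := hsb.2.1
    refine ⟨?_, ?_, ⟨B, hB, INT_onE M y B k⟩, ⟨B, INT_onE M y B k⟩, ?_⟩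
    · intro hx
      exact hne B ⟨INT_endV hEDG M B _ x (INT_onE M y B k) hx, hB⟩
    · intro hy
      rw [Sym2.mem_iff] at hy
      rcases hy with hy | hy
      · have h5 : M.bd B (st M y B + 0) = M.bd B (st M y B + k) := by
          have h6 : ww M y B 0 = ww M y B k := by rw [hw0.1]; exact hy
          exact h6
        have := h1 0 k (by omega) (by omega) h5
        omega
      · have h5 : M.bd B (st M y B + 0) = M.bd B (st M y B + (k + 1)) := by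
          have h6 : ww M y B 0 = ww M y B (k + 1) := by rw [hw0.1]; exact hy
          exact h6
        have := h1 0 (k + 1) (by omega) (by omega) h5
        omega
    · intro v hv
      rw [Sym2.mem_iff] at hv
      rcases hv with rfl | rfl
      · exact ⟨B, hB, k, ⟨a, hak, hsa⟩, ⟨b, hkb.le, hsb⟩, rfl⟩
      · exact ⟨B, hB, k + 1, ⟨a, by omega, hsa⟩, ⟨b, hkb, hsb⟩, rfl⟩

end Pool.Agent.helper81.NW
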